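import Pool.Agent.H37.CTL.Stmts

set_option autoImplicit false

namespace Pool.CND

theorem t62_charF (p : ℕ) (F : Type) [Field F] (f q : ℕ)
    (hp : p.Prime) (hf : 1 ≤ f) (hq : q = p ^ f) (hF : Nat.card F = q) :
    CharP F p := by
  have := Fact.mk hp
  have : Finite F := Nat.finite_of_card_ne_zero (by rw [hF, hq]; exact pow_ne_zero _ hp.ne_zero)
  have : Fintype F := Fintype.ofFinite F
  obtain ⟨r, hr⟩ := CharP.exists F
  obtain ⟨n, hr1, hr2⟩ := FiniteField.card F r
  rw [Nat.card_eq_fintype_card, hr2, hq] at hF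
  have : p = r := by
    have h1 : p ∣ r ^ (n : ℕ) := hF ▸ dvd_pow_self p (by omega)
    exact (Nat.prime_dvd_prime_iff_eq hp hr1).1 (hp.dvd_of_dvd_pow h1)
  rw [this]; exact hr

/-- a finite field of characteristic `p` embeds in an algebraically closed one -/
theorem t62_alg (p : ℕ) (k F : Type) [Field k] [IsAlgClosed k] [Field F] (hp : p.Prime)
    (hk : CharP k p) (hF : CharP F p) (hfin : Finite F) : Nonempty (Algebra F k) := by
  have := Fact.mk hp
  letI : Algebra (ZMod p) F := ZMod.algebra F p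
  letI : Algebra (ZMod p) k := ZMod.algebra k p
  have h1 : Algebra.IsAlgebraic (ZMod p) F := inferInstance
  exact ⟨(IsAlgClosed.lift (R := ZMod p) (S := F) (M := k)).toRingHom.toAlgebra⟩

theorem t62_center (p : ℕ) (F : Type) [Field F] [Finite F] [CharP F p] (hp : p.Prime) :
    ¬ p ∣ Nat.card (Subgroup.center (Matrix.SpecialLinearGroup (Fin 3) F)) := by
  have := Fact.mk hp
  intro h
  obtain ⟨g, hg⟩ := exists_prime_orderOf_dvd_card' p h
  set u := Matrix.SpecialLinearGroup.center_equiv_rootsOfUnity g with hu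
  have h1 : u ^ p = 1 := by
    rw [hu, ← map_pow, ← hg, pow_orderOf_eq_one, map_one]
  have h2 : ((u : Fˣ) : F) ^ p = 1 := by
    have := congrArg (fun x => ((x : Fˣ) : F)) (congrArg Subtype.val h1)
    simpa using this
  have h3 : (((u : Fˣ) : F) - 1) ^ p = 0 := by
    rw [sub_pow_char, h2, one_pow, sub_self]
  have h4 : ((u : Fˣ) : F) = 1 := sub_eq_zero.1 (pow_eq_zero_iff hp.ne_zero |>.1 h3)
  have h5 : u = 1 := by
    apply Subtype.ext
    apply Units.ext
    simpa using h4
  have h6 : g = 1 := by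
    apply Matrix.SpecialLinearGroup.center_equiv_rootsOfUnity.injective
    rw [← hu, h5, map_one]
  rw [h6, orderOf_one] at hg
  exact hp.one_lt.ne hg

theorem t62_thm (h60 : S_T60) (h61 : S_T61) (hN : S_NQD) : S_T62 := by
  intro p k F _ _ _ f q hp hp2 hk hf hq hF C _ hC
  have hfin : Finite F :=
    Nat.finite_of_card_ne_zero (by rw [hF, hq]; exact pow_ne_zero _ hp.ne_zero)
  have hch : CharP F p := t62_charF p F f q hp hf hq hF
  obtain ⟨hA⟩ := t62_alg p k F hp hk hch hfin
  have a1 : q * (q ^ 2 - 1) ∣ NG k (Matrix.SpecialLinearGroup (Fin 3) F) :=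
    h60 p k F f q hp hp2 hk hf hq hF
  have hCp : ¬ p ∣ Nat.card C := fun h =>
    t62_center p F hp (h.trans (Subgroup.card_dvd_of_le hC))
  have a2 := hN p k (Matrix.SpecialLinearGroup (Fin 3) F) C hp hk hCp
  exact Nat.dvd_antisymm (h61 p k F f q hp hk hf hq hF C hC) (a1.trans a2)

end Pool.CND
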